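import Pool.Agent.Work.MP_d70a14_gt.Defs

/-! # Linear maps of determinant one (M)

Both by a trick: a linear automorphism `T` of a finite-dimensional space which is conjugate to its inverse has
`det T = (det T)⁻¹`, so `(det T)^2 = 1` and `|det T| = 1`; in particular for an involution `T ∘ T = 1`.
* `det_shear`: `T (a, b) = (a + M b, b)`; with `J (a, b) = (a, -b)` (`J ∘ J = 1`) we have `J T J = T⁻¹` (`(a, b) ↦ (a - M b, b)`).  The same for
  `T (a, b) = (a, b + M a)` with `J (a, b) = (-a, b)`.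
* `det_prod_invol`: `T (a, b) = (R a, R b)` with `R ∘ R = 1` is an involution.
(`ContinuousLinearMap.det`, `LinearMap.det_comp`.) -/

open MeasureTheory Set Metric Filter Topology
open scoped RealInnerProductSpace ContDiff ENNReal

noncomputable section

namespace Pool.Agent.Work.MP_d70a14_gt

theorem det_of_invol {F : Type*} [NormedAddCommGroup F] [NormedSpace ℝ F] [FiniteDimensional ℝ F]
    (T : F →L[ℝ] F) (h : ∀ x, T (T x) = x) : |T.det| = 1 := by
  have h1 : (T : F →ₗ[ℝ] F) ∘ₗ (T : F →ₗ[ℝ] F) = LinearMap.id := LinearMap.ext h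
  have h2 : T.det * T.det = 1 := by
    show LinearMap.det (T : F →ₗ[ℝ] F) * LinearMap.det (T : F →ₗ[ℝ] F) = 1
    rw [← LinearMap.det_comp, h1, LinearMap.det_id]
  have h3 : |T.det| * |T.det| = 1 := by
    rw [← abs_mul, h2, abs_one]
  nlinarith [abs_nonneg T.det]

private theorem det_of_conj {F : Type*} [NormedAddCommGroup F] [NormedSpace ℝ F]
    [FiniteDimensional ℝ F] (T J : F →L[ℝ] F) (hJ : ∀ x, J (J x) = x)
    (h : ∀ x, T (J (T (J x))) = x) : |T.det| = 1 := by
  have h1 := det_of_invol J hJ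
  have h2 := det_of_invol (T.comp J) h
  have h3 : (T.comp J).det = T.det * J.det := LinearMap.det_comp (T : F →ₗ[ℝ] F) (J : F →ₗ[ℝ] F)
  rw [h3, abs_mul, h1, mul_one] at h2
  exact h2

theorem det_shear_left (M : E →L[ℝ] E) (T : E × E →L[ℝ] E × E)
    (hT : ∀ h : E × E, T h = (h.1 + M h.2, h.2)) : |T.det| = 1 := by
  refine det_of_conj T ((ContinuousLinearMap.fst ℝ E E).prod (-ContinuousLinearMap.snd ℝ E E)) ?_ ?_
  · intro x
    simp
  · intro x
    simp [hT]

theorem det_shear_right (M : E →L[ℝ] E) (T : E × E →L[ℝ] E × E)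
    (hT : ∀ h : E × E, T h = (h.1, h.2 + M h.1)) : |T.det| = 1 := by
  refine det_of_conj T ((-ContinuousLinearMap.fst ℝ E E).prod (ContinuousLinearMap.snd ℝ E E)) ?_ ?_
  · intro x
    simp
  · intro x
    simp [hT]

end Pool.Agent.Work.MP_d70a14_gt

end
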