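import Pool.Agent.Work.MP_d70a14_gt.B.DetA
import Pool.Agent.Work.MP_d70a14_gt.A.Mirror

/-! # The derivative of the reflection map has determinant ±1 (M)

Notation: `R = mirror n` (linear, `R ∘ R = 1`), `v' = R v`, `β = ⟪v, n⟫ ≠ 0`, `y = h.1 + τ h.2`, `δ = dτ h`, `dp = y + δ v`, so `⟪dp, n⟫ = 0`
gives `δ = -⟪y, n⟫/β`: a linear function of `y`.  Hence `dp` is a linear function of `y`, and
`dp - δ v' = y + δ (v - v') = y + 2 δ β n = y - 2 ⟪y, n⟫ n = R y`.  So with `dv = R h.2 + M y` where `M y = -(2⟪v, N dp⟫) n - (2⟪v, n⟫) N dp`,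
`L h = (R y - τ dv, dv)`.  Therefore `L = S₋τ ∘ T ∘ D ∘ Sτ` with `Sτ (a, b) = (a + τ b, b)`, `D (a, b) = (R a, R b)`,
`T (a, b) = (a, b + M (R a))`, `S₋τ (a, b) = (a - τ b, b)`: `L h = S₋τ (R y, R h.2 + M y)`.  All have `|det| = 1` (B/DetA). -/

open MeasureTheory Set Metric Filter Topology
open scoped RealInnerProductSpace ContDiff ENNReal

noncomputable section

namespace Pool.Agent.Work.MP_d70a14_gt

theorem det_step {τ : ℝ} {v n : E} (hn : ‖n‖ = 1) (hv : ⟪v, n⟫ ≠ 0) (N : E →L[ℝ] E)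
    (dτ : E × E →L[ℝ] ℝ) (htan : ∀ h : E × E, ⟪h.1 + τ • h.2 + dτ h • v, n⟫ = 0)
    (L : E × E →L[ℝ] E × E)
    (hL : ∀ h : E × E, L h =
      (h.1 + τ • h.2 + dτ h • v - dτ h • mirror n v -
        τ • (mirror n h.2 - (2 * ⟪v, N (h.1 + τ • h.2 + dτ h • v)⟫) • n -
          (2 * ⟪v, n⟫) • N (h.1 + τ • h.2 + dτ h • v)),
       mirror n h.2 - (2 * ⟪v, N (h.1 + τ • h.2 + dτ h • v)⟫) • n -
          (2 * ⟪v, n⟫) • N (h.1 + τ • h.2 + dτ h • v))) : |L.det| = 1 := by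
  set R : E →L[ℝ] E := ContinuousLinearMap.id ℝ E - (2 : ℝ) • (innerSL ℝ n).smulRight n with hR
  have hRa : ∀ x, R x = mirror n x := by
    intro x
    simp only [hR, mirror, sub_apply, ContinuousLinearMap.id_apply,
      smul_apply, ContinuousLinearMap.smulRight_apply, innerSL_apply_apply,
      real_inner_comm x n, smul_smul]
  have hRR : ∀ x, R (R x) = x := by
    intro x
    rw [hRa, hRa, mirror_mirror hn]
  set P : E →L[ℝ] E := ContinuousLinearMap.id ℝ E - (⟪v, n⟫⁻¹ : ℝ) • (innerSL ℝ n).smulRight v with hP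
  have hPa : ∀ x, P x = x - (⟪x, n⟫ / ⟪v, n⟫) • v := by
    intro x
    simp only [hP, sub_apply, ContinuousLinearMap.id_apply,
      smul_apply, ContinuousLinearMap.smulRight_apply, innerSL_apply_apply,
      real_inner_comm x n, smul_smul]
    congr 2
    ring
  set M : E →L[ℝ] E := -((2 : ℝ) • ((innerSL ℝ v).comp (N.comp P)).smulRight n) -
    (2 * ⟪v, n⟫ : ℝ) • N.comp P with hM
  have hMa : ∀ x, M x = -((2 * ⟪v, N (P x)⟫) • n) - (2 * ⟪v, n⟫) • N (P x) := by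
    intro x
    simp only [hM, sub_apply, neg_apply,
      ContinuousLinearMap.comp_apply,
      smul_apply, ContinuousLinearMap.smulRight_apply, innerSL_apply_apply,
      smul_smul]
  set S₁ : E × E →L[ℝ] E × E := (ContinuousLinearMap.fst ℝ E E + τ • ContinuousLinearMap.snd ℝ E E).prod
    (ContinuousLinearMap.snd ℝ E E) with hS₁
  set S₂ : E × E →L[ℝ] E × E := (ContinuousLinearMap.fst ℝ E E - τ • ContinuousLinearMap.snd ℝ E E).prod
    (ContinuousLinearMap.snd ℝ E E) with hS₂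
  set D : E × E →L[ℝ] E × E := (R.comp (ContinuousLinearMap.fst ℝ E E)).prod
    (R.comp (ContinuousLinearMap.snd ℝ E E)) with hD
  set T : E × E →L[ℝ] E × E := (ContinuousLinearMap.fst ℝ E E).prod
    (ContinuousLinearMap.snd ℝ E E + (M.comp R).comp (ContinuousLinearMap.fst ℝ E E)) with hT
  have e1 : |S₁.det| = 1 := det_shear_left (τ • ContinuousLinearMap.id ℝ E) S₁ (fun h => by
    simp [hS₁])
  have e2 : |S₂.det| = 1 := det_shear_left (-(τ • ContinuousLinearMap.id ℝ E)) S₂ (fun h => by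
    simp [hS₂, sub_eq_add_neg])
  have e3 : |D.det| = 1 := det_of_invol D (fun h => by
    simp only [hD, ContinuousLinearMap.prod_apply, ContinuousLinearMap.comp_apply,
      ContinuousLinearMap.coe_fst', ContinuousLinearMap.coe_snd', hRR])
  have e4 : |T.det| = 1 := det_shear_right (M.comp R) T (fun h => by
    simp [hT])
  have hδ : ∀ h : E × E, dτ h = -(⟪h.1 + τ • h.2, n⟫ / ⟪v, n⟫) := by
    intro h
    have h1 := htan h
    rw [inner_add_left, real_inner_smul_left] at h1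
    field_simp
    linarith
  have hdp : ∀ h : E × E, h.1 + τ • h.2 + dτ h • v = P (h.1 + τ • h.2) := by
    intro h
    rw [hPa, hδ h]
    module
  have hdv : ∀ h : E × E, mirror n h.2 - (2 * ⟪v, N (h.1 + τ • h.2 + dτ h • v)⟫) • n -
      (2 * ⟪v, n⟫) • N (h.1 + τ • h.2 + dτ h • v) = R h.2 + M (h.1 + τ • h.2) := by
    intro h
    rw [hdp h, hMa, hRa]
    module
  have hfst : ∀ h : E × E, h.1 + τ • h.2 + dτ h • v - dτ h • mirror n v = R (h.1 + τ • h.2) := by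
    intro h
    rw [hRa]
    unfold mirror
    rw [hδ h]
    have h2 : ⟪h.1 + τ • h.2, n⟫ / ⟪v, n⟫ * ⟪v, n⟫ = ⟪h.1 + τ • h.2, n⟫ := by
      field_simp
    have h3 : h.1 + τ • h.2 + -(⟪h.1 + τ • h.2, n⟫ / ⟪v, n⟫) • v -
        -(⟪h.1 + τ • h.2, n⟫ / ⟪v, n⟫) • (v - (2 * ⟪v, n⟫) • n) =
        h.1 + τ • h.2 - (2 * (⟪h.1 + τ • h.2, n⟫ / ⟪v, n⟫ * ⟪v, n⟫)) • n := by module
    rw [h3, h2]
  have hLc : L = S₂.comp (T.comp (D.comp S₁)) := by
    refine ContinuousLinearMap.ext fun h => ?_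
    rw [hL h, hdv h, hfst h]
    simp only [hS₁, hS₂, hD, hT, ContinuousLinearMap.prod_apply, ContinuousLinearMap.comp_apply,
      ContinuousLinearMap.coe_fst', ContinuousLinearMap.coe_snd', hRR,
      add_apply, sub_apply, smul_apply]
  have hdet : L.det = S₂.det * (T.det * (D.det * S₁.det)) := by
    rw [hLc]
    show LinearMap.det ((S₂ : E × E →ₗ[ℝ] E × E) ∘ₗ ((T : E × E →ₗ[ℝ] E × E) ∘ₗ
      ((D : E × E →ₗ[ℝ] E × E) ∘ₗ (S₁ : E × E →ₗ[ℝ] E × E)))) = _
    rw [LinearMap.det_comp, LinearMap.det_comp, LinearMap.det_comp]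
  rw [hdet, abs_mul, abs_mul, abs_mul, e1, e2, e3, e4]
  norm_num

end Pool.Agent.Work.MP_d70a14_gt

end
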