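import Pool.Agent.Work.MP_d70a14_gt.B.FlowLoc
import Pool.Agent.Work.MP_d70a14_gt.A.FlowRev

/-! # Rays near a ray which leaves through an end (M)

`Wall V K ι = frontier V \ ⋃ i, ι i '' K i` with a closed union (`Body.closed_ends`): `flow_local`.  Let `m` be the normal of the end at
`y₀ = ι i z₀` (`Body.end_normal`: `V` is the half ball near `y₀`; `m = n₀` by uniqueness), `β = ⟪w₀, m⟫ < 0` (`neg_of_free` for the last flight, or: the last item of
`flow_local` says that `y₀ + (s - t₀) w₀ ∈ V` for `s < t₀` near `t₀`, so `(s - t₀) β > 0`).  Put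
`T q = ⟪y₀ - (A q).1, m⟫ / ⟪(A q).2, m⟫`, continuous near `(x₀, v₀)` with `T (x₀, v₀) = t₀`; for `q` near `(x₀, v₀)` the end point
`z = (A q).1 + T q (A q).2` satisfies `⟪z - y₀, m⟫ = 0` and is near `y₀`: it is of the form `ι i z'` with `z'` near `z₀` (the plane is exactly the
set of such points: dimension), so `z' ∈ interior (K i)`; before `T q` (near `y₀`) the points have `⟪· - y₀, m⟫ > 0`, so they are in `V` (half ball);
on the rest of `[t₀ - η, ·)` use compactness.  The normal at `z` is again `m` (one sided description around `z` inside the same ball: `InnerNormal`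
with the linear `ρ`). -/

open MeasureTheory Set Metric Filter Topology
open scoped RealInnerProductSpace ContDiff ENNReal

noncomputable section

namespace Pool.Agent.Work.MP_d70a14_gt

/-- the range of an affine isometry of the plane is the whole plane -/
private theorem ExitLoc_plane (a : P2 →ᵃⁱ[ℝ] E) {m : E} (hm : ‖m‖ = 1) {z₀ : P2}
    (h : ∀ z, ⟪a z - a z₀, m⟫ = 0) {z : E} (hz : ⟪z - a z₀, m⟫ = 0) : ∃ z', a z' = z := by
  have hm0 : m ≠ 0 := by
    intro h0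
    rw [h0, norm_zero] at hm
    exact zero_ne_one hm
  have hL : ∀ u : P2, a.linearIsometry u = a (u +ᵥ z₀) - a z₀ := by
    intro u
    rw [a.map_vadd, vadd_eq_add, add_sub_cancel_right]
  have hle : LinearMap.range a.linearIsometry.toLinearMap ≤ (Submodule.span ℝ {m})ᗮ := by
    rintro _ ⟨u, rfl⟩
    rw [Submodule.mem_orthogonal_singleton_iff_inner_left]
    change ⟪a.linearIsometry u, m⟫ = 0
    rw [hL]
    exact h _
  have h1 : Module.finrank ℝ (LinearMap.range a.linearIsometry.toLinearMap) = 2 := by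
    rw [LinearMap.finrank_range_of_inj a.linearIsometry.injective]
    simp
  have hfact : Fact (Module.finrank ℝ E = 2 + 1) := ⟨by simp⟩
  have h2 : Module.finrank ℝ (Submodule.span ℝ {m})ᗮ = 2 :=
    Submodule.finrank_orthogonal_span_singleton hm0
  have heq := Submodule.eq_of_le_of_finrank_eq hle (h1.trans h2.symm)
  have hz' : z - a z₀ ∈ (Submodule.span ℝ {m})ᗮ :=
    Submodule.mem_orthogonal_singleton_iff_inner_left.2 hz
  rw [← heq] at hz'
  obtain ⟨u, hu⟩ := hz'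
  refine ⟨u +ᵥ z₀, ?_⟩
  rw [a.map_vadd, vadd_eq_add]
  change a.linearIsometry u = z - a z₀ at hu
  rw [hu, sub_add_cancel]

/-- the normal of a plane piece -/
private theorem ExitLoc_normal {V : Set E} {y₀ m z : E} {r : ℝ} (hm : ‖m‖ = 1)
    (hV : ∀ x ∈ ball y₀ r, (x ∈ V ↔ 0 < ⟪x - y₀, m⟫)) (hz : z ∈ ball y₀ r)
    (hz0 : ⟪z - y₀, m⟫ = 0) : InnerNormal V z m := by
  have hg : HasGradientAt (fun x : E => ⟪x - z, m⟫) m z := by
    rw [hasGradientAt_iff_hasFDerivAt]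
    have h1 : HasFDerivAt (fun x : E => (innerSL ℝ m) (x - z)) ((innerSL ℝ m) ∘L
        ContinuousLinearMap.id ℝ E) z :=
      (innerSL ℝ m).hasFDerivAt.comp z ((hasFDerivAt_id z).sub_const z)
    have h2 : (fun x : E => ⟪x - z, m⟫) = fun x : E => (innerSL ℝ m) (x - z) := by
      funext x
      rw [innerSL_apply_apply, real_inner_comm]
    rw [h2]
    exact h1
  refine ⟨hm, fun x => ⟪x - z, m⟫, ?_, ?_, ⟨1, one_pos, ?_⟩, ?_⟩
  · exact ((contDiff_id.sub contDiff_const).inner ℝ contDiff_const).contDiffAt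
  · change ⟪z - z, m⟫ = 0
    rw [sub_self, inner_zero_left]
  · rw [hg.gradient, one_smul]
  · filter_upwards [isOpen_ball.mem_nhds hz] with x hx
    rw [hV x hx]
    have h3 : x - y₀ = (x - z) + (z - y₀) := by abel
    rw [h3, inner_add_left, hz0, add_zero]

theorem exit_local {V : Set E} {K : Bool → Set P2} {ι : Bool → P2 →ᵃⁱ[ℝ] E} (hb : Body V K ι)
    (i : Bool) {k : ℕ} {x₀ v₀ y₀ w₀ n₀ : E} {t₀ : ℝ} (h : Flow V (Wall V K ι) k x₀ v₀ t₀ y₀ w₀)
    (hx : x₀ ∈ V) (hy : y₀ ∈ ι i '' interior (K i)) (hn : InnerNormal V y₀ n₀)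
    (hw : ⟪w₀, n₀⟫ ≠ 0) :
    ∃ (N : Set (E × E)) (A : E × E → E × E) (T : E × E → ℝ), IsOpen N ∧ (x₀, v₀) ∈ N ∧
      ContDiffOn ℝ 1 A N ∧ A (x₀, v₀) = (y₀ - t₀ • w₀, w₀) ∧
      (∀ q ∈ N, |(fderiv ℝ A q).det| = 1) ∧ ContinuousOn T N ∧ T (x₀, v₀) = t₀ ∧
      ∀ q ∈ N, q.1 ∈ V ∧
        Flow V (Wall V K ι) k q.1 q.2 (T q) ((A q).1 + T q • (A q).2) (A q).2 ∧
        (A q).1 + T q • (A q).2 ∈ ι i '' interior (K i) ∧
        ∃ n, InnerNormal V ((A q).1 + T q • (A q).2) n ∧ ⟪(A q).2, n⟫ < 0 := by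
  obtain ⟨z₀, hz₀, hzy⟩ := hy
  obtain ⟨m, hmN, hm0, r, hr, hmV⟩ := hb.end_normal i hz₀
  rw [hzy] at hmN hmV
  have hm1 : ‖m‖ = 1 := hmN.1
  have hnm : n₀ = m := hn.unique hmN
  rw [hnm] at hw
  obtain ⟨N₀, A, η, hN₀o, hmem, hη, hηt, hAc, hAv, hAd, hAe, hAf, hAflow⟩ :=
    flow_local hb.isOpen hb.closed_ends h (Or.inl hx)
  -- the sign
  have hβ : ⟪w₀, m⟫ < 0 := by
    obtain ⟨ε, hε, hε1, hε2⟩ : ∃ ε : ℝ, 0 < ε ∧ ε ≤ η ∧ ε * ‖w₀‖ < r := by
      refine ⟨min η (r / (2 * (‖w₀‖ + 1))), lt_min hη (by positivity), min_le_left _ _, ?_⟩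
      have h1 : min η (r / (2 * (‖w₀‖ + 1))) * ‖w₀‖ ≤ r / (2 * (‖w₀‖ + 1)) * ‖w₀‖ :=
        mul_le_mul_of_nonneg_right (min_le_right _ _) (norm_nonneg _)
      have h2 : r / (2 * (‖w₀‖ + 1)) * ‖w₀‖ ≤ r / 2 := by
        have h3 : r / (2 * (‖w₀‖ + 1)) * ‖w₀‖ = (r / 2) * (‖w₀‖ / (‖w₀‖ + 1)) := by
          field_simp
        rw [h3]
        have h4 : ‖w₀‖ / (‖w₀‖ + 1) ≤ 1 := by
          rw [div_le_one (by positivity)]
          linarith
        have h5 : 0 ≤ r / 2 := by positivity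
        nlinarith
      linarith
    have h1 := hAf (t₀ - ε) (by linarith) (by linarith)
    have h2 : t₀ - ε - t₀ = -ε := by ring
    rw [h2] at h1
    have h3 : y₀ + (-ε) • w₀ ∈ ball y₀ r := by
      rw [mem_ball, dist_eq_norm, add_sub_cancel_left, norm_smul, norm_neg,
        Real.norm_of_nonneg hε.le]
      exact hε2
    have h4 := (hmV _ h3).1 h1
    rw [add_sub_cancel_left, real_inner_smul_left] at h4
    nlinarith
  have hnb : N₀ ∈ 𝓝 (x₀, v₀) := hN₀o.mem_nhds hmem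
  have cA : ContinuousAt A (x₀, v₀) := hAc.continuousOn.continuousAt hnb
  have cA1 : ContinuousAt (fun q => (A q).1) (x₀, v₀) := cA.fst
  have cA2 : ContinuousAt (fun q => (A q).2) (x₀, v₀) := cA.snd
  set T : E × E → ℝ := fun q => ⟪y₀ - (A q).1, m⟫ / ⟪(A q).2, m⟫ with hT
  have hT0 : T (x₀, v₀) = t₀ := by
    rw [hT]
    change ⟪y₀ - (A (x₀, v₀)).1, m⟫ / ⟪(A (x₀, v₀)).2, m⟫ = t₀
    rw [hAv]
    change ⟪y₀ - (y₀ - t₀ • w₀), m⟫ / ⟪w₀, m⟫ = t₀
    rw [sub_sub_cancel, real_inner_smul_left, mul_div_assoc, div_self hβ.ne, mul_one]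
  have cT : ContinuousAt T (x₀, v₀) := by
    refine ContinuousAt.div ((continuousAt_const.sub cA1).inner continuousAt_const)
      (cA2.inner continuousAt_const) ?_
    rw [hAv]
    exact hβ.ne
  -- the position
  have cG : ContinuousAt (fun u : (E × E) × ℝ => (A u.1).1 + u.2 • (A u.1).2) ((x₀, v₀), t₀) := by
    have c1 : ContinuousAt (fun u : (E × E) × ℝ => A u.1) ((x₀, v₀), t₀) :=
      ContinuousAt.comp (f := fun u : (E × E) × ℝ => u.1) (g := A) (x := ((x₀, v₀), t₀)) cA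
        continuousAt_fst
    exact c1.fst.add (continuousAt_snd.smul c1.snd)
  have hG0 : (A (x₀, v₀)).1 + t₀ • (A (x₀, v₀)).2 = y₀ := by
    rw [hAv]
    change y₀ - t₀ • w₀ + t₀ • w₀ = y₀
    rw [sub_add_cancel]
  have hGb : ∀ᶠ u in 𝓝 ((x₀, v₀), t₀), (A u.1).1 + u.2 • (A u.1).2 ∈ ball y₀ r := by
    refine cG.eventually_mem ?_
    change ball y₀ r ∈ 𝓝 ((A (x₀, v₀)).1 + t₀ • (A (x₀, v₀)).2)
    rw [hG0]
    exact ball_mem_nhds y₀ hr
  rw [nhds_prod_eq, Filter.eventually_prod_iff] at hGb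
  obtain ⟨pa, hpa, pb, hpb, hab⟩ := hGb
  obtain ⟨ε₂, hε₂, hpb2⟩ := Metric.eventually_nhds_iff.1 hpb
  -- the interior point
  obtain ⟨r', hr', hKi⟩ := Metric.isOpen_iff.1 (isOpen_interior : IsOpen (interior (K i))) z₀ hz₀
  have e1 : ∀ᶠ q in 𝓝 (x₀, v₀), q ∈ N₀ := hnb
  have e2 : ∀ᶠ q : E × E in 𝓝 (x₀, v₀), q.1 ∈ V := by
    have c1 : ContinuousAt (fun q : E × E => q.1) (x₀, v₀) := continuousAt_fst
    exact c1.eventually_mem (hb.isOpen.mem_nhds hx)
  have e3 : ∀ᶠ q in 𝓝 (x₀, v₀), ⟪(A q).2, m⟫ < 0 := by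
    have c1 : ContinuousAt (fun q => ⟪(A q).2, m⟫) (x₀, v₀) := cA2.inner continuousAt_const
    refine c1.tendsto.eventually_lt_const ?_
    rw [hAv]
    exact hβ
  have e4 : ∀ᶠ q in 𝓝 (x₀, v₀), |T q - t₀| < min ε₂ η := by
    have c1 := cT.eventually_mem (s := ball t₀ (min ε₂ η))
      (by rw [hT0]; exact ball_mem_nhds t₀ (lt_min hε₂ hη))
    filter_upwards [c1] with q hq
    rw [mem_ball, Real.dist_eq] at hq
    exact hq
  have e5 : ∀ᶠ q in 𝓝 (x₀, v₀), (A q).1 + T q • (A q).2 ∈ ball y₀ r' := by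
    have c1 : ContinuousAt (fun q => (A q).1 + T q • (A q).2) (x₀, v₀) :=
      cA1.add (cT.smul cA2)
    refine c1.eventually_mem ?_
    rw [hT0, hG0]
    exact ball_mem_nhds y₀ hr'
  have e6 : ∀ᶠ q in 𝓝 (x₀, v₀), ∀ s ∈ Icc (t₀ - η) (t₀ - ε₂ / 2), (A q).1 + s • (A q).2 ∈ V := by
    refine isCompact_Icc.eventually_forall_of_forall_eventually ?_
    intro s hs
    have c2 : ContinuousAt (fun p : (E × E) × ℝ => (A p.1).1 + p.2 • (A p.1).2) ((x₀, v₀), s) := by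
      have c3 : ContinuousAt (fun p : (E × E) × ℝ => A p.1) ((x₀, v₀), s) :=
        ContinuousAt.comp (f := fun p : (E × E) × ℝ => p.1) (g := A) (x := ((x₀, v₀), s)) cA
          continuousAt_fst
      exact c3.fst.add (continuousAt_snd.smul c3.snd)
    refine c2.eventually_mem (hb.isOpen.mem_nhds ?_)
    change (A (x₀, v₀)).1 + s • (A (x₀, v₀)).2 ∈ V
    rw [hAv]
    have h4 : y₀ - t₀ • w₀ + s • w₀ = y₀ + (s - t₀) • w₀ := by
      rw [sub_smul]
      abel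
    change y₀ - t₀ • w₀ + s • w₀ ∈ V
    rw [h4]
    exact hAf s hs.1 (by linarith [hs.2])
  obtain ⟨N, hN, hNo, hNm⟩ := _root_.eventually_nhds_iff.1
    (e1.and (e2.and (e3.and (e4.and (e5.and (e6.and hpa))))))
  have hsub : N ⊆ N₀ := fun q hq => (hN q hq).1
  refine ⟨N, A, T, hNo, hNm, hAc.mono hsub, hAv, fun q hq => hAd q (hsub hq), ?_, hT0, ?_⟩
  · have cN : ContinuousOn A N := hAc.continuousOn.mono hsub
    refine ContinuousOn.div ((continuousOn_const.sub cN.fst).inner continuousOn_const)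
      (cN.snd.inner continuousOn_const) ?_
    intro q hq
    exact (hN q hq).2.2.1.ne
  · intro q hq
    obtain ⟨p1, p2, p3, p4, p5, p6, p7⟩ := hN q hq
    have hTq : T q * ⟪(A q).2, m⟫ = ⟪y₀ - (A q).1, m⟫ := by
      change ⟪y₀ - (A q).1, m⟫ / ⟪(A q).2, m⟫ * ⟪(A q).2, m⟫ = _
      rw [div_mul_cancel₀ _ p3.ne]
    have hlin : ∀ s : ℝ, ⟪(A q).1 + s • (A q).2 - y₀, m⟫ = (s - T q) * ⟪(A q).2, m⟫ := by
      intro s
      have h1 : (A q).1 + s • (A q).2 - y₀ = s • (A q).2 - (y₀ - (A q).1) := by abel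
      rw [h1, inner_sub_left, real_inner_smul_left, ← hTq]
      ring
    have hz0 : ⟪(A q).1 + T q • (A q).2 - y₀, m⟫ = 0 := by
      rw [hlin, sub_self, zero_mul]
    have hTa : |T q - t₀| < ε₂ := p4.trans_le (min_le_left _ _)
    have hTb : |T q - t₀| < η := p4.trans_le (min_le_right _ _)
    rw [abs_lt] at hTa hTb
    have hzr : (A q).1 + T q • (A q).2 ∈ ball y₀ r :=
      hab p7 (hpb2 (by rw [Real.dist_eq, abs_lt]; exact hTa))
    refine ⟨p2, ?_, ?_, m, ExitLoc_normal hm1 hmV hzr hz0, p3⟩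
    · refine hAflow q p1 (subset_closure p2) (T q) (by linarith) ?_
      intro s h1 h2
      rcases le_or_gt s (t₀ - ε₂ / 2) with h3 | h3
      · exact p6 s ⟨h1.le, h3⟩
      · have h4 : (A q).1 + s • (A q).2 ∈ ball y₀ r := by
          refine hab p7 (hpb2 ?_)
          rw [Real.dist_eq, abs_lt]
          constructor <;> linarith
        rw [hmV _ h4, hlin]
        exact mul_pos_of_neg_of_neg (by linarith) p3
    · obtain ⟨z', hz'⟩ := ExitLoc_plane (ι i) hm1 (z₀ := z₀) hm0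
        (z := (A q).1 + T q • (A q).2) (by rw [hzy]; exact hz0)
      refine ⟨z', hKi ?_, hz'⟩
      rw [mem_ball, ← (ι i).dist_map z' z₀, hz', hzy]
      exact p5

end Pool.Agent.Work.MP_d70a14_gt

end
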