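import Pool.Agent.Work.MP_d70a14_gt.A.Normal

/-! # Stability of free flights (M)

If `x₀ ∈ V`: the compact set `{x₀ + s v₀ : 0 ≤ s ≤ a}` is in the open set `V`; by compactness (`IsCompact` of `Icc 0 a`, the map
`(q, s) ↦ q.1 + s q.2` is continuous: `generalized_tube_lemma` or `IsCompact.eventually_forall_of_forall_eventually`)
the same holds for all `q` near `(x₀, v₀)`.
If `x₀` is a boundary point with inner normal `n` and `⟪v₀, n⟫ > 0`: let `ρ` be as in the definition, good on a ball `B` around `x₀`, with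
`⟪∇ρ (x), v⟫ > 0` for `x ∈ B`, `v` near `v₀`.  For `x ∈ B ∩ closure V`: `ρ x ≥ 0` (limit of points with `ρ > 0`).  So for `q`
near `(x₀, v₀)`, `q.1 ∈ closure V` and `0 < s ≤ s₁` (small, such that the segment is in `B`): `ρ (q.1 + s q.2) > ρ (q.1) ≥ 0`, hence in `V`.
For `s₁ ≤ s ≤ a` use the compactness argument on `Icc s₁ a`. -/

open MeasureTheory Set Metric Filter Topology
open scoped RealInnerProductSpace ContDiff ENNReal

noncomputable section

namespace Pool.Agent.Work.MP_d70a14_gt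

private theorem compact_stable {V : Set E} (hV : IsOpen V) {x₀ v₀ : E} {K : Set ℝ}
    (hK : IsCompact K) (h : ∀ s ∈ K, x₀ + s • v₀ ∈ V) :
    ∀ᶠ q : E × E in 𝓝 (x₀, v₀), ∀ s ∈ K, q.1 + s • q.2 ∈ V := by
  apply hK.eventually_forall_of_forall_eventually
  intro s hs
  have hc : Continuous fun z : (E × E) × ℝ => z.1.1 + z.2 • z.1.2 := by fun_prop
  exact hc.continuousAt.eventually_mem (hV.mem_nhds (h s hs))

private theorem short_stable {V : Set E} {x₀ v₀ n : E} (hn : InnerNormal V x₀ n)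
    (hv : 0 < ⟪v₀, n⟫) :
    ∃ s₁ : ℝ, 0 < s₁ ∧ ∀ᶠ q : E × E in 𝓝 (x₀, v₀), q.1 ∈ closure V →
      ∀ s : ℝ, 0 < s → s ≤ s₁ → q.1 + s • q.2 ∈ V := by
  obtain ⟨hn1, ρ, hρ, hρ0, ⟨c, hc, hg⟩, hV⟩ := hn
  have h1 : ∀ᶠ x in 𝓝 x₀, ContDiffAt ℝ 2 ρ x := hρ.eventually (by simp)
  have h2 : ContinuousAt (fderiv ℝ ρ) x₀ := (hρ.fderiv_right (m := 1) (by norm_num)).continuousAt
  have h3 : ContinuousAt (fun q : E × E => fderiv ℝ ρ q.1 q.2) (x₀, v₀) := by
    have h4 : ContinuousAt (fun q : E × E => fderiv ℝ ρ q.1) (x₀, v₀) :=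
      ContinuousAt.comp (f := Prod.fst) (g := fderiv ℝ ρ) h2 continuousAt_fst
    exact h4.clm_apply continuousAt_snd
  have h4 : 0 < fderiv ℝ ρ x₀ v₀ := by
    have h5 : ⟪gradient ρ x₀, v₀⟫ = fderiv ℝ ρ x₀ v₀ := by
      unfold gradient
      exact InnerProductSpace.toDual_symm_apply
    rw [← h5, hg, real_inner_smul_left, real_inner_comm]
    exact mul_pos hc hv
  have h5 : ∀ᶠ q : E × E in 𝓝 (x₀, v₀), 0 < fderiv ℝ ρ q.1 q.2 := h3.eventually_const_lt h4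
  have h6 : ∀ᶠ q : E × E in 𝓝 (x₀, v₀), ContDiffAt ℝ 2 ρ q.1 ∧ (q.1 ∈ V ↔ 0 < ρ q.1) := by
    have h7 : Tendsto Prod.fst (𝓝 (x₀, v₀)) (𝓝 x₀) := (continuous_fst (X := E) (Y := E)).tendsto _
    exact h7.eventually (h1.and hV)
  obtain ⟨r, hr, hball⟩ := Metric.eventually_nhds_iff.1 (h5.and h6)
  have hb : ∀ x v : E, dist x x₀ < r → dist v v₀ < r →
      0 < fderiv ℝ ρ x v ∧ ContDiffAt ℝ 2 ρ x ∧ (x ∈ V ↔ 0 < ρ x) := by
    intro x v hx hv
    have := hball (y := (x, v)) (by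
      rw [Prod.dist_eq]
      exact max_lt hx hv)
    exact ⟨this.1, this.2.1, this.2.2⟩
  have hpos : 0 < ‖v₀‖ + r := by positivity
  refine ⟨r / (2 * (‖v₀‖ + r)), by positivity, ?_⟩
  have h7 : ∀ᶠ q : E × E in 𝓝 (x₀, v₀), dist q (x₀, v₀) < r / 2 :=
    Metric.eventually_nhds_iff.2 ⟨r / 2, by positivity, fun y hy => hy⟩
  filter_upwards [h7] with q hq hq1 s hs hs1
  have hq2 : dist q.1 x₀ < r / 2 := (le_max_left _ _).trans_lt (by rwa [Prod.dist_eq] at hq)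
  have hq3 : dist q.2 v₀ < r := ((le_max_right _ _).trans_lt (by rwa [Prod.dist_eq] at hq)).trans
    (by linarith)
  have hq4 : ‖q.2‖ < ‖v₀‖ + r := by
    have h8 : ‖q.2‖ ≤ ‖v₀‖ + ‖q.2 - v₀‖ := by
      have := norm_add_le v₀ (q.2 - v₀)
      rwa [add_sub_cancel] at this
    rw [dist_eq_norm] at hq3
    linarith
  have hin : ∀ σ, 0 ≤ σ → σ ≤ s → dist (q.1 + σ • q.2) x₀ < r := by
    intro σ hσ hσs
    have h8 : dist (q.1 + σ • q.2) x₀ ≤ ‖σ • q.2‖ + dist q.1 x₀ := by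
      rw [dist_eq_norm, dist_eq_norm]
      have h9 : q.1 + σ • q.2 - x₀ = σ • q.2 + (q.1 - x₀) := by module
      rw [h9]
      exact norm_add_le _ _
    have h10 : ‖σ • q.2‖ ≤ r / 2 := by
      rw [norm_smul, Real.norm_eq_abs, abs_of_nonneg hσ]
      calc σ * ‖q.2‖ ≤ (r / (2 * (‖v₀‖ + r))) * (‖v₀‖ + r) := by
            apply mul_le_mul (hσs.trans hs1) hq4.le (norm_nonneg _) (by positivity)
        _ = r / 2 := by field_simp
    linarith
  have hder : ∀ σ, 0 ≤ σ → σ ≤ s → HasDerivAt (fun σ : ℝ => ρ (q.1 + σ • q.2))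
      (fderiv ℝ ρ (q.1 + σ • q.2) q.2) σ := by
    intro σ hσ hσs
    have h8 : HasDerivAt (fun σ : ℝ => q.1 + σ • q.2) q.2 σ := by
      have := ((hasDerivAt_id σ).smul_const q.2).const_add q.1
      simpa using this
    have h9 := ((hb _ _ (hin σ hσ hσs) hq3).2.1.differentiableAt (by norm_num)).hasFDerivAt
    exact h9.comp_hasDerivAt σ h8
  have hmono : StrictMonoOn (fun σ : ℝ => ρ (q.1 + σ • q.2)) (Icc 0 s) := by
    apply strictMonoOn_of_deriv_pos (convex_Icc 0 s)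
    · exact fun σ hσ => (hder σ hσ.1 hσ.2).continuousAt.continuousWithinAt
    · intro σ hσ
      rw [interior_Icc] at hσ
      rw [(hder σ hσ.1.le hσ.2.le).deriv]
      exact (hb _ _ (hin σ hσ.1.le hσ.2.le) hq3).1
  have h8 := hmono (left_mem_Icc.2 hs.le) (right_mem_Icc.2 hs.le) hs
  have h9 : 0 ≤ ρ q.1 := by
    have h10 : dist q.1 x₀ < r := by linarith
    have h11 : (𝓝[V] q.1).NeBot := mem_closure_iff_nhdsWithin_neBot.1 hq1
    have h12 : Tendsto ρ (𝓝[V] q.1) (𝓝 (ρ q.1)) :=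
      (hb _ _ h10 hq3).2.1.continuousAt.tendsto.mono_left nhdsWithin_le_nhds
    refine ge_of_tendsto h12 ?_
    have h13 : ∀ᶠ y in 𝓝 q.1, dist y x₀ < r :=
      (continuous_id.dist continuous_const).continuousAt.eventually_lt continuousAt_const h10
    filter_upwards [self_mem_nhdsWithin, nhdsWithin_le_nhds h13] with y hy1 hy2
    exact ((hb y q.2 hy2 hq3).2.2.1 hy1).le
  have h10 : ρ (q.1 + (0 : ℝ) • q.2) = ρ q.1 := by
    rw [zero_smul, add_zero]
  have h11 : 0 < ρ (q.1 + s • q.2) := by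
    have h12 : ρ (q.1 + (0 : ℝ) • q.2) < ρ (q.1 + s • q.2) := h8
    rw [h10] at h12
    linarith
  exact (hb _ _ (hin s hs.le le_rfl) hq3).2.2.2 h11

theorem free_stable {V : Set E} (hV : IsOpen V) {x₀ v₀ : E} {a : ℝ} (ha : 0 < a)
    (hx : x₀ ∈ V ∨ ∃ n, InnerNormal V x₀ n ∧ 0 < ⟪v₀, n⟫)
    (hfree : ∀ s, 0 < s → s ≤ a → x₀ + s • v₀ ∈ V) :
    ∀ᶠ q : E × E in 𝓝 (x₀, v₀), q.1 ∈ closure V → ∀ s, 0 < s → s ≤ a → q.1 + s • q.2 ∈ V := by
  rcases hx with hx | ⟨n, hn, hv⟩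
  · have h1 := compact_stable hV (isCompact_Icc (a := (0 : ℝ)) (b := a)) (x₀ := x₀) (v₀ := v₀) (by
      intro s hs
      rcases eq_or_lt_of_le hs.1 with h | h
      · rw [← h, zero_smul, add_zero]
        exact hx
      · exact hfree s h hs.2)
    filter_upwards [h1] with q hq _ s hs hsa
    exact hq s ⟨hs.le, hsa⟩
  · obtain ⟨s₁, hs₁, h1⟩ := short_stable hn hv
    have h2 := compact_stable hV (isCompact_Icc (a := s₁) (b := a)) (x₀ := x₀) (v₀ := v₀)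
      (fun s hs => hfree s (by linarith [hs.1]) hs.2)
    filter_upwards [h1, h2] with q hq1 hq2 hqc s hs hsa
    rcases le_or_gt s s₁ with h | h
    · exact hq1 hqc s hs h
    · exact hq2 s ⟨h.le, hsa⟩

end Pool.Agent.Work.MP_d70a14_gt

end
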