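import Pool.Agent.Work.MP_d70a14_gt.B.Step
import Pool.Agent.Work.MP_d70a14_gt.B.FreeSt
import Pool.Agent.Work.MP_d70a14_gt.A.FlowDet

/-! # Local structure of the flow (L)

`A q` is the virtual state: position at time `0` of the straight line of the last flight, and the last velocity.  Induction on the flow.
`W = frontier V \ C` with `C` closed.
* `free` (`y₀ = x₀ + t₀ v₀`): `A = id`, `η = t₀/2`; `N` from `free_stable` with `a = t₀ - η` (open neighbourhood inside the
  `∀ᶠ` set).  For `q ∈ N`, `q.1 ∈ closure V`, `t > t₀ - η`, free on `(t₀ - η, t)`: free on `(0, t)`: `Flow.free`.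
* `refl`: first flight `t₁`, `p₀ = x₀ + t₁ v₀ ∈ W`, normal `n₀`, `⟪v₀, n₀⟫ < 0` (`neg_of_free`), rest `Flow k p₀ v₀' t₂ y₀ w₀`,
  `v₀' = mirror n₀ v₀`, `⟪v₀', n₀⟫ > 0`: the start `p₀` is admissible; induction hypothesis: `N', A', η'`.  From `oneStep`: `N₁, τ, S, δ`.
  Put `A q = (z.1 - t₁ z.2, z.2)` with `z = A' ((S q).1 + (t₁ - τ q) (S q).2, (S q).2)`: this is `F₋ ∘ A' ∘ F₊ ∘ B` with
  `F± (a, b) = (a ± t₁ b, b)` (linear, `|det| = 1` by `det_shear_left`) and `B q = ((S q).1 - τ q (S q).2, (S q).2)`, `|det DB| = 1` by `oneStep`: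
  so `|det DA| = 1` (`fderiv_comp`, `det_comp`); defined for `q` so near to `(x₀, v₀)` that `F₊ (B q) ∈ N'` and `S q ∈ N'` (continuity;
  `τ → t₁`, so both tend to `(p₀, v₀')`).  By the equivariance of `A'`: `A q = ((A' (S q)).1 - τ q (A' (S q)).2, (A' (S q)).2)`.
  Equivariance of `A` from that of `τ` and `S`.  Value at `(x₀, v₀)`: `y₀ - t₂ w₀ - t₁ w₀`.
  Flow: `η = η'/2`.  Let `q` near `(x₀, v₀)`, `q.1 ∈ closure V`, `|τ q - t₁| < η/2`.  First flight: free on `(0, τ q)`: by `free_stable` on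
  `(0, t₁ - δ/2]` and by `oneStep` on `(τ q - δ, τ q)`.  `p = (S q).1` has an inner normal so it is in `frontier V ⊆ closure V`, and `p ∉ C` since
  `C` is closed and `p₀ ∉ C`: `p ∈ W`.  Rest by the induction hypothesis at `S q` with time `t' = t - τ q > t₂ - η'`.  The freeness which it
  needs: for `t₂ - η' < s' < t'` the point `(A' (S q)).1 + s' (A' (S q)).2 = (A q).1 + s (A q).2` with `s = s' + τ q`.  If `s' > t₂ - η/2` then
  `t₀ - η < s < t`: hypothesis.  If `t₂ - η' < s' ≤ t₂ - η/2`: for the base point `(p₀, v₀')` this is `y₀ + (s' - t₂) w₀ ∈ V` for all `s'` in the compact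
  interval `[t₂ - η', t₂ - η/2]` (last but one item for `A'`), so by the tube lemma also for `z` near `(p₀, v₀')`, in particular for `z = S q`.
The last item (`y₀ + (s - t₀) w₀ ∈ V` for `t₀ - η ≤ s < t₀`) holds as `η` is smaller than the duration of the last flight. -/

open MeasureTheory Set Metric Filter Topology
open scoped RealInnerProductSpace ContDiff ENNReal

noncomputable section

namespace Pool.Agent.Work.MP_d70a14_gt

private def sh (t : ℝ) : E × E →L[ℝ] E × E :=
  (ContinuousLinearMap.fst ℝ E E + t • ContinuousLinearMap.snd ℝ E E).prod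
    (ContinuousLinearMap.snd ℝ E E)

private theorem sh_apply (t : ℝ) (q : E × E) : sh t q = (q.1 + t • q.2, q.2) := rfl

private theorem sh_det (t : ℝ) : |(sh t).det| = 1 :=
  det_shear_left (t • ContinuousLinearMap.id ℝ E) (sh t) fun _ => rfl

private theorem det_comp' (T₁ T₂ : E × E →L[ℝ] E × E) : (T₁.comp T₂).det = T₁.det * T₂.det := by
  unfold ContinuousLinearMap.det
  rw [← LinearMap.det_comp]
  rfl

/-- the determinant of the composed state map -/
private theorem fl_det {N N' : Set (E × E)} {A A' B : E × E → E × E} {t : ℝ} (hN : IsOpen N)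
    (hN' : IsOpen N') (hB : ContDiffOn ℝ 1 B N) (hA' : ContDiffOn ℝ 1 A' N')
    (hm : ∀ q ∈ N, sh t (B q) ∈ N') (hA : ∀ q ∈ N, A q = sh (-t) (A' (sh t (B q))))
    (hBd : ∀ q ∈ N, |(fderiv ℝ B q).det| = 1) (hAd : ∀ q ∈ N', |(fderiv ℝ A' q).det| = 1)
    {q : E × E} (hq : q ∈ N) : |(fderiv ℝ A q).det| = 1 := by
  have h1 : HasFDerivAt B (fderiv ℝ B q) q :=
    (((hB q hq).contDiffAt (hN.mem_nhds hq)).differentiableAt (by norm_num)).hasFDerivAt
  have h2 : HasFDerivAt A' (fderiv ℝ A' (sh t (B q))) (sh t (B q)) :=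
    (((hA' _ (hm q hq)).contDiffAt (hN'.mem_nhds (hm q hq))).differentiableAt
      (by norm_num)).hasFDerivAt
  have h3 : HasFDerivAt (fun q => sh t (B q)) ((sh t).comp (fderiv ℝ B q)) q :=
    (sh t).hasFDerivAt.comp q h1
  have h4 : HasFDerivAt (fun q => A' (sh t (B q)))
      ((fderiv ℝ A' (sh t (B q))).comp ((sh t).comp (fderiv ℝ B q))) q := h2.comp q h3
  have h5 : HasFDerivAt (fun q => sh (-t) (A' (sh t (B q))))
      ((sh (-t)).comp ((fderiv ℝ A' (sh t (B q))).comp ((sh t).comp (fderiv ℝ B q)))) q :=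
    (sh (-t)).hasFDerivAt.comp q h4
  have h6 : A =ᶠ[𝓝 q] fun q => sh (-t) (A' (sh t (B q))) := by
    filter_upwards [hN.mem_nhds hq] with q' hq'
    exact hA q' hq'
  rw [h6.fderiv_eq, h5.fderiv, det_comp', det_comp', det_comp', abs_mul, abs_mul, abs_mul,
    sh_det, sh_det, hBd q hq, hAd _ (hm q hq)]
  norm_num

/-- the tube lemma for the last flight -/
private theorem fl_tube {V : Set E} (hV : IsOpen V) {A' : E × E → E × E} {z₀ : E × E} {a b : ℝ}
    (hA : ContinuousAt A' z₀) (h : ∀ s, a ≤ s → s ≤ b → (A' z₀).1 + s • (A' z₀).2 ∈ V) :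
    ∀ᶠ z in 𝓝 z₀, ∀ s, a ≤ s → s ≤ b → (A' z).1 + s • (A' z).2 ∈ V := by
  have h1 : ∀ᶠ z in 𝓝 z₀, ∀ s ∈ Icc a b, (A' z).1 + s • (A' z).2 ∈ V := by
    refine isCompact_Icc.eventually_forall_of_forall_eventually ?_
    intro s hs
    have h2 : ContinuousAt (fun p : (E × E) × ℝ => (A' p.1).1 + p.2 • (A' p.1).2) (z₀, s) := by
      have h3 : ContinuousAt (fun p : (E × E) × ℝ => A' p.1) (z₀, s) :=
        ContinuousAt.comp (f := fun p : (E × E) × ℝ => p.1) (g := A') (x := (z₀, s)) hA
          continuousAt_fst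
      exact h3.fst.add (continuousAt_snd.smul h3.snd)
    exact h2.eventually_mem (hV.mem_nhds (h s hs.1 hs.2))
  filter_upwards [h1] with z hz s hs1 hs2
  exact hz s ⟨hs1, hs2⟩

theorem flow_local {V C : Set E} (hV : IsOpen V) (hC : IsClosed C) {k : ℕ} {x₀ v₀ y₀ w₀ : E}
    {t₀ : ℝ} (h : Flow V (frontier V \ C) k x₀ v₀ t₀ y₀ w₀)
    (hx : x₀ ∈ V ∨ ∃ n, InnerNormal V x₀ n ∧ 0 < ⟪v₀, n⟫) :
    ∃ (N : Set (E × E)) (A : E × E → E × E) (η : ℝ), IsOpen N ∧ (x₀, v₀) ∈ N ∧ 0 < η ∧ η < t₀ ∧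
      ContDiffOn ℝ 1 A N ∧ A (x₀, v₀) = (y₀ - t₀ • w₀, w₀) ∧
      (∀ q ∈ N, |(fderiv ℝ A q).det| = 1) ∧
      (∀ q ∈ N, ∀ s : ℝ, (q.1 + s • q.2, q.2) ∈ N →
        A (q.1 + s • q.2, q.2) = ((A q).1 + s • (A q).2, (A q).2)) ∧
      (∀ s, t₀ - η ≤ s → s < t₀ → y₀ + (s - t₀) • w₀ ∈ V) ∧
      (∀ q ∈ N, q.1 ∈ closure V → ∀ t, t₀ - η < t →
        (∀ s, t₀ - η < s → s < t → (A q).1 + s • (A q).2 ∈ V) →
        Flow V (frontier V \ C) k q.1 q.2 t ((A q).1 + t • (A q).2) (A q).2) := by
  induction h with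
  | @free x v t ht hf =>
    have hst := free_stable hV (a := t / 2) (by positivity) hx
      (fun s h1 h2 => hf s h1 (by linarith))
    obtain ⟨N, hN, hNo, hNm⟩ := _root_.eventually_nhds_iff.1 hst
    refine ⟨N, id, t / 2, hNo, hNm, by positivity, by linarith, contDiffOn_id, ?_, ?_, ?_, ?_, ?_⟩
    · show (x, v) = (x + t • v - t • v, v)
      rw [add_sub_cancel_right]
    · intro q hq
      rw [fderiv_id]
      show |LinearMap.det (LinearMap.id : E × E →ₗ[ℝ] E × E)| = 1
      rw [LinearMap.det_id, abs_one]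
    · intro q _ s _
      rfl
    · intro s h1 h2
      have h3 : x + t • v + (s - t) • v = x + s • v := by
        rw [sub_smul]
        abel
      rw [h3]
      exact hf s (by linarith) h2
    · intro q hq hqc T hT hfr
      refine Flow.free (by linarith) fun s h1 h2 => ?_
      rcases le_or_gt s (t / 2) with h3 | h3
      · exact hN q hq hqc s h1 h3
      · exact hfr s (by linarith) h2
  | @refl k x v t n t' y w ht hf hW hn hv hF ih =>
    have hneg : ⟪v, n⟫ < 0 := hn.neg_of_free ht hf hv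
    obtain ⟨N', A', η', hN'o, hmem', hη', hη't, hA'c, hA'v, hA'd, hA'e, hA'f, hA'flow⟩ :=
      ih (Or.inr ⟨n, hn, by rw [inner_mirror hn.1]; linarith⟩)
    obtain ⟨N₁, τ, S, δ, hN₁o, hmem₁, hδ, hτc, hτ0, hSc, hS0, hSp, hSeq, hSdet⟩ :=
      oneStep hn hneg
    have hnb : N₁ ∈ 𝓝 (x, v) := hN₁o.mem_nhds hmem₁
    have cS : ContinuousAt S (x, v) := hSc.continuousOn.continuousAt hnb
    have cτ : ContinuousAt τ (x, v) := hτc.continuousOn.continuousAt hnb
    have e1 : ∀ᶠ q in 𝓝 (x, v), q ∈ N₁ := hnb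
    have e2 : ∀ᶠ q in 𝓝 (x, v), S q ∈ N' :=
      cS.eventually_mem (by rw [hS0]; exact hN'o.mem_nhds hmem')
    have e3 : ∀ᶠ q in 𝓝 (x, v), sh t ((S q).1 - τ q • (S q).2, (S q).2) ∈ N' := by
      have c1 : ContinuousAt (fun q => sh t ((S q).1 - τ q • (S q).2, (S q).2)) (x, v) :=
        (sh t).continuous.continuousAt.comp
          ((cS.fst.sub (cτ.smul cS.snd)).prodMk cS.snd)
      refine c1.eventually_mem ?_
      rw [sh_apply, hS0, hτ0]
      show N' ∈ 𝓝 (x + t • v - t • mirror n v + t • mirror n v, mirror n v)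
      rw [sub_add_cancel]
      exact hN'o.mem_nhds hmem'
    have e4 : ∀ ε : ℝ, 0 < ε → ∀ᶠ q in 𝓝 (x, v), |τ q - t| < ε := by
      intro ε hε
      have c1 := cτ.eventually_mem (s := ball t ε) (by rw [hτ0]; exact ball_mem_nhds t hε)
      filter_upwards [c1] with q hq
      rw [mem_ball, Real.dist_eq] at hq
      exact hq
    have hδ1 : min δ t ≤ δ := min_le_left _ _
    have hδ2 : min δ t ≤ t := min_le_right _ _
    have hδ3 : 0 < min δ t := lt_min hδ ht
    have e5 := free_stable hV (a := t - min δ t / 2) (by linarith) hx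
      (fun s h1 h2 => hf s h1 (by linarith))
    have e6 : ∀ᶠ q in 𝓝 (x, v), (S q).1 ∉ C := by
      have c1 : ContinuousAt (fun q => (S q).1) (x, v) := cS.fst
      refine c1.eventually_mem (s := Cᶜ) ?_
      rw [hS0]
      exact hC.isOpen_compl.mem_nhds hW.2
    have e7 : ∀ᶠ q in 𝓝 (x, v), ∀ s, t' - η' ≤ s → s ≤ t' - η' / 4 →
        (A' (S q)).1 + s • (A' (S q)).2 ∈ V := by
      have c1 : ContinuousAt A' (x + t • v, mirror n v) :=
        hA'c.continuousOn.continuousAt (hN'o.mem_nhds hmem')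
      have c2 := fl_tube hV (a := t' - η') (b := t' - η' / 4) c1 (by
        intro s h1 h2
        rw [hA'v]
        have h3 := hA'f s h1 (by linarith)
        have h4 : y - t' • w + s • w = y + (s - t') • w := by
          rw [sub_smul]
          abel
        show y - t' • w + s • w ∈ V
        rw [h4]
        exact h3)
      rw [← hS0] at c2
      exact cS.eventually c2
    have hev := e1.and (e2.and (e3.and ((e4 (η' / 4) (by positivity)).and
      ((e4 (δ / 2) (by positivity)).and ((e4 t ht).and (e5.and (e6.and e7)))))))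
    obtain ⟨N, hN, hNo, hNm⟩ := _root_.eventually_nhds_iff.1 hev
    have cB : ContDiffOn ℝ 1 (fun q => ((S q).1 - τ q • (S q).2, (S q).2)) N₁ :=
      (hSc.fst.sub (hτc.smul hSc.snd)).prodMk hSc.snd
    have hsub : N ⊆ N₁ := fun q hq => (hN q hq).1
    have hAS : ContDiffOn ℝ 1 (fun q => A' (S q)) N :=
      hA'c.comp (hSc.mono hsub) fun q hq => (hN q hq).2.1
    refine ⟨N, fun q => ((A' (S q)).1 - τ q • (A' (S q)).2, (A' (S q)).2), η' / 2, hNo, hNm,
      by positivity, by linarith, ?_, ?_, ?_, ?_, ?_, ?_⟩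
    · exact (hAS.fst.sub ((hτc.mono hsub).smul hAS.snd)).prodMk hAS.snd
    · show ((A' (S (x, v))).1 - τ (x, v) • (A' (S (x, v))).2, (A' (S (x, v))).2) = _
      rw [hS0, hA'v, hτ0]
      show (y - t' • w - t • w, w) = (y - (t + t') • w, w)
      rw [add_smul]
      congr 1
      abel
    · intro q hq
      refine fl_det (N := N) (N' := N') (A' := A') (t := t)
        (B := fun q => ((S q).1 - τ q • (S q).2, (S q).2)) hNo hN'o (cB.mono hsub) hA'c
        (fun q hq => (hN q hq).2.2.1) ?_ (fun q hq => hSdet q (hsub hq)) hA'd hq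
      intro q hq
      have h1 := (hN q hq).2.2.1
      have h2 : sh t ((S q).1 - τ q • (S q).2, (S q).2) =
          ((S q).1 + (t - τ q) • (S q).2, (S q).2) := by
        rw [sh_apply]
        show ((S q).1 - τ q • (S q).2 + t • (S q).2, (S q).2) = _
        rw [sub_smul]
        congr 1
        abel
      rw [h2] at h1
      have h3 := hA'e (S q) (hN q hq).2.1 (t - τ q) h1
      show ((A' (S q)).1 - τ q • (A' (S q)).2, (A' (S q)).2) =
        sh (-t) (A' (sh t ((S q).1 - τ q • (S q).2, (S q).2)))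
      rw [h2, h3, sh_apply]
      show _ = ((A' (S q)).1 + (t - τ q) • (A' (S q)).2 + (-t) • (A' (S q)).2, (A' (S q)).2)
      rw [sub_smul, neg_smul]
      congr 1
      abel
    · intro q hq s hq'
      obtain ⟨h1, h2⟩ := hSeq q (hsub hq) s (hsub hq')
      show ((A' (S (q.1 + s • q.2, q.2))).1 - τ (q.1 + s • q.2, q.2) •
        (A' (S (q.1 + s • q.2, q.2))).2, (A' (S (q.1 + s • q.2, q.2))).2) =
        ((A' (S q)).1 - τ q • (A' (S q)).2 + s • (A' (S q)).2, (A' (S q)).2)
      rw [h1, h2, sub_smul]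
      congr 1
      abel
    · intro s h1 h2
      have h3 := hA'f (s - t) (by linarith) (by linarith)
      have h4 : s - (t + t') = s - t - t' := by ring
      rw [h4]
      exact h3
    · intro q hq hqc T hT hfr
      obtain ⟨p1, p2, p3, p4, p5, p6, p7, p8, p9⟩ := hN q hq
      obtain ⟨hSq1, ⟨n', hn', hv', hm'⟩, hfree⟩ := hSp q p1
      rw [abs_lt] at p4 p5 p6
      have hSq : q.1 + τ q • q.2 = (S q).1 := hSq1.symm
      have hrest := hA'flow (S q) p2 (frontier_subset_closure hn'.mem_frontier) (T - τ q)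
        (by linarith) (by
          intro s h1 h2
          rcases le_or_gt s (t' - η' / 4) with h3 | h3
          · exact p9 s h1.le h3
          · have h4 := hfr (s + τ q) (by linarith) (by linarith)
            have h5 : (A' (S q)).1 - τ q • (A' (S q)).2 + (s + τ q) • (A' (S q)).2 =
                (A' (S q)).1 + s • (A' (S q)).2 := by
              rw [add_smul]
              abel
            rw [← h5]
            exact h4)
      have hend : (A' (S q)).1 - τ q • (A' (S q)).2 + T • (A' (S q)).2 =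
          (A' (S q)).1 + (T - τ q) • (A' (S q)).2 := by
        rw [sub_smul]
        abel
      show Flow V (frontier V \ C) (k + 1) q.1 q.2 T
        ((A' (S q)).1 - τ q • (A' (S q)).2 + T • (A' (S q)).2) (A' (S q)).2
      rw [hend]
      have hTT : τ q + (T - τ q) = T := by ring
      have hfin : Flow V (frontier V \ C) (k + 1) q.1 q.2 (τ q + (T - τ q))
          ((A' (S q)).1 + (T - τ q) • (A' (S q)).2) (A' (S q)).2 := by
        refine Flow.refl (n := n') (by linarith) ?_ ?_ ?_ hv'.ne ?_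
        · intro s h1 h2
          rcases le_or_gt s (t - min δ t / 2) with h3 | h3
          · exact p7 hqc s h1 h3
          · exact hfree s (by linarith) h2
        · rw [hSq]
          exact ⟨hn'.mem_frontier, p8⟩
        · rw [hSq]
          exact hn'
        · rw [hSq, ← hm']
          exact hrest
      rw [hTT] at hfin
      exact hfin

end Pool.Agent.Work.MP_d70a14_gt

end
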