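import Pool.Agent.Work.MP_d70a14_gt.B.FlowLoc
import Pool.Agent.Work.MP_d70a14_gt.A.FlowRev

/-! # The time-t map near an interior end point (M)

`flow_local` (with `x₀ ∈ V`): for `s ∈ [t₀ - η, t₀]` the point `y₀ + (s - t₀) w₀` is in `V` (at `s = t₀` it is `y₀`), so by compactness for all `q`
near `(x₀, v₀)` and all `s ∈ [t₀ - η, t₀]`: `(A q).1 + s (A q).2 ∈ V`.  Hence `Φ q = ((A q).1 + t₀ (A q).2, (A q).2)` satisfies
`Flow V W k q.1 q.2 t₀ (Φ q).1 (Φ q).2` and `(Φ q).1 ∈ V`.  `|det DΦ| = 1`: compose `A` with the shear (`det_shear_left`).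
Injectivity on `N`: if `Φ q = Φ q'` then `Flow.rev` and `Flow.det` (from the common end state with reversed velocity) give `q = q'`. -/

open MeasureTheory Set Metric Filter Topology
open scoped RealInnerProductSpace ContDiff ENNReal

noncomputable section

namespace Pool.Agent.Work.MP_d70a14_gt

theorem flow_map {V C : Set E} (hV : IsOpen V) (hC : IsClosed C) {k : ℕ} {x₀ v₀ y₀ w₀ : E}
    {t₀ : ℝ} (h : Flow V (frontier V \ C) k x₀ v₀ t₀ y₀ w₀) (hx : x₀ ∈ V) (hy : y₀ ∈ V) :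
    ∃ (N : Set (E × E)) (Φ : E × E → E × E), IsOpen N ∧ (x₀, v₀) ∈ N ∧ ContDiffOn ℝ 1 Φ N ∧
      Φ (x₀, v₀) = (y₀, w₀) ∧ InjOn Φ N ∧ (∀ q ∈ N, |(fderiv ℝ Φ q).det| = 1) ∧
      ∀ q ∈ N, q.1 ∈ V ∧ (Φ q).1 ∈ V ∧
        Flow V (frontier V \ C) k q.1 q.2 t₀ (Φ q).1 (Φ q).2 := by
  obtain ⟨N, A, η, hN, h0, hη, hηt, hA, hA0, hdet, -, hend, hloc⟩ := flow_local hV hC h (Or.inl hx)
  have hAc : ContinuousAt A (x₀, v₀) := (hA.contDiffAt (hN.mem_nhds h0)).continuousAt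
  have h1 : ∀ᶠ q : E × E in 𝓝 (x₀, v₀), ∀ s ∈ Icc (t₀ - η) t₀, (A q).1 + s • (A q).2 ∈ V := by
    apply isCompact_Icc.eventually_forall_of_forall_eventually
    intro s hs
    have h2 : ContinuousAt (fun z : (E × E) × ℝ => (A z.1).1 + z.2 • (A z.1).2) ((x₀, v₀), s) := by
      have h3 : ContinuousAt (fun z : (E × E) × ℝ => A z.1) ((x₀, v₀), s) :=
        ContinuousAt.comp (f := Prod.fst) (g := A) hAc continuousAt_fst
      exact h3.fst.add (continuousAt_snd.smul h3.snd)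
    refine h2.eventually_mem (hV.mem_nhds ?_)
    show (A (x₀, v₀)).1 + s • (A (x₀, v₀)).2 ∈ V
    rw [hA0]
    show y₀ - t₀ • w₀ + s • w₀ ∈ V
    have h3 : y₀ - t₀ • w₀ + s • w₀ = y₀ + (s - t₀) • w₀ := by module
    rw [h3]
    rcases eq_or_lt_of_le hs.2 with h4 | h4
    · rw [h4, sub_self, zero_smul, add_zero]
      exact hy
    · exact hend s hs.1 h4
  have h2 : ∀ᶠ q : E × E in 𝓝 (x₀, v₀), q.1 ∈ V :=
    continuousAt_fst.eventually_mem (hV.mem_nhds hx)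
  obtain ⟨N', hN', hN'o, hN'm⟩ := _root_.eventually_nhds_iff.1 ((h1.and h2).and (hN.mem_nhds h0))
  have hfl : ∀ q ∈ N', Flow V (frontier V \ C) k q.1 q.2 t₀ ((A q).1 + t₀ • (A q).2) (A q).2 := by
    intro q hq
    obtain ⟨⟨h3, h4⟩, h5⟩ := hN' q hq
    exact hloc q h5 (subset_closure h4) t₀ (by linarith) fun s hs hst => h3 s ⟨hs.le, hst.le⟩
  refine ⟨N', fun q => ((A q).1 + t₀ • (A q).2, (A q).2), hN'o, hN'm, ?_, ?_, ?_, ?_, ?_⟩
  · have h3 : ContDiffOn ℝ 1 A N' := hA.mono fun q hq => (hN' q hq).2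
    have h4 : ContDiffOn ℝ 1 (fun q => t₀ • (A q).2) N' := h3.snd.const_smul t₀
    exact (h3.fst.add h4).prodMk h3.snd
  · show ((A (x₀, v₀)).1 + t₀ • (A (x₀, v₀)).2, (A (x₀, v₀)).2) = _
    rw [hA0]
    show (y₀ - t₀ • w₀ + t₀ • w₀, w₀) = _
    rw [sub_add_cancel]
  · intro q hq q' hq' he
    have h3 := (hfl q hq).rev
    have h4 := (hfl q' hq').rev
    have h5 : (A q).1 + t₀ • (A q).2 = (A q').1 + t₀ • (A q').2 := congrArg Prod.fst he
    have h6 : (A q).2 = (A q').2 := (Prod.ext_iff.1 he).2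
    rw [h5, h6] at h3
    obtain ⟨-, h7, h8⟩ := Flow.det hV sdiff_subset h3 h4
    exact Prod.ext h7 (neg_injective h8)
  · intro q hq
    have h3 := hdet q (hN' q hq).2
    have h4 : HasFDerivAt A (fderiv ℝ A q) q :=
      ((hA.contDiffAt (hN.mem_nhds (hN' q hq).2)).differentiableAt one_ne_zero).hasFDerivAt
    set Sh : E × E →L[ℝ] E × E :=
      (ContinuousLinearMap.fst ℝ E E + t₀ • ContinuousLinearMap.snd ℝ E E).prod
        (ContinuousLinearMap.snd ℝ E E) with hSh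
    have h5 : |Sh.det| = 1 := det_shear_left (t₀ • ContinuousLinearMap.id ℝ E) Sh (fun h => by
      simp [hSh])
    have h6 : HasFDerivAt (fun q => ((A q).1 + t₀ • (A q).2, (A q).2)) (Sh.comp (fderiv ℝ A q)) q :=
      Sh.hasFDerivAt.comp q h4
    rw [h6.fderiv]
    have h7 : (Sh.comp (fderiv ℝ A q)).det = Sh.det * (fderiv ℝ A q).det :=
      LinearMap.det_comp (Sh : E × E →ₗ[ℝ] E × E) (fderiv ℝ A q : E × E →ₗ[ℝ] E × E)
    rw [h7, abs_mul, h5, h3, one_mul]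
  · intro q hq
    exact ⟨(hN' q hq).1.2, (hN' q hq).1.1 t₀ ⟨by linarith, le_rfl⟩, hfl q hq⟩

end Pool.Agent.Work.MP_d70a14_gt

end
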