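import Pool.Agent.Work.MP_d70a14_gt.A.Normal

/-! # The hitting time (M-L)

Let `ρ` be as in `InnerNormal V p₀ n₀`, `∇ρ p₀ = c n₀`.  It is `C^2` near `p₀` (`ContDiffAt.eventually`), the equivalence `x ∈ V ↔ 0 < ρ x` and
`∇ρ ≠ 0` hold near `p₀`.
* `ν p = ‖∇ρ p‖⁻¹ • ∇ρ p`: `C^1` near `p₀` (gradient = Riesz dual of `fderiv`, `ContDiffAt.fderiv_right`), `ν p₀ = n₀`, and
  if `p` is near `p₀` and `ρ p = 0` then `InnerNormal V p (ν p)` (same `ρ`).
* `τ`: the map `H : (E × E) × ℝ → (E × E) × ℝ`, `H (q, t) = (q, ρ (q.1 + t q.2))` is `C^2` near `((x₀, v₀), t₀)` with invertible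
  derivative, because `∂_t = ⟪∇ρ p₀, v₀⟫ = c ⟪n₀, v₀⟫ < 0`: `ContDiffAt.to_localInverse` (or
  `HasStrictFDerivAt.implicitFunction`); `τ q` is the second component of the local inverse at `(q, 0)`.
* choose `η > 0` and a small open ball `N` around `(x₀, v₀)` such that for `q ∈ N` and `|t - t₀| < 2η`: `ρ` is good at `q.1 + t q.2`
  and `⟪∇ρ (q.1 + t q.2), q.2⟫ < 0`, so `t ↦ ρ (q.1 + t q.2)` is strictly decreasing there, `|τ q - t₀| < η`; `δ = η`.  Then for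
  `τ q - δ < s < τ q`: `ρ > 0`, so the point is in `V`.
* equivariance: if `q` and `q' = (q.1 + s q.2, q.2)` are in `N` then `ρ (q.1 + (s + τ q') q.2) = 0`.  Shrink `N` so that
  `‖q.2‖ ≥ ‖v₀‖/2 > 0` (`v₀ ≠ 0` as `⟪v₀, n₀⟫ < 0`) and so `|s| < η` whenever both points are in `N`; by strict monotonicity on `|t - t₀| < 2η`
  the zero is unique: `s + τ q' = τ q`.
* tangency: differentiate `ρ (q.1 + τ q q.2) = 0` (on the open set `N`) in the direction `h`: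
  `⟪∇ρ, h.1 + τ q h.2 + (dτ h) q.2⟫ = 0`. -/

open MeasureTheory Set Metric Filter Topology
open scoped RealInnerProductSpace ContDiff ENNReal

noncomputable section

namespace Pool.Agent.Work.MP_d70a14_gt

/-- the gradient of a function of class `C^2` is of class `C^1` -/
private theorem Hit_grad {ρ : E → ℝ} {p : E} (h : ContDiffAt ℝ 2 ρ p) :
    ContDiffAt ℝ 1 (gradient ρ) p := by
  have h1 : ContDiffAt ℝ 1 (fderiv ℝ ρ) p := h.fderiv_right (by norm_num)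
  rw [contDiffAt_euclidean]
  intro i
  have h2 : (fun x => gradient ρ x i) = fun x => fderiv ℝ ρ x (EuclideanSpace.single i 1) := by
    funext x
    rw [← inner_gradient_left, EuclideanSpace.inner_single_right]
    simp
  rw [h2]
  exact h1.clm_apply contDiffAt_const

/-- the unit vector in the direction of the gradient -/
private def Hit_nu (ρ : E → ℝ) (p : E) : E := ‖gradient ρ p‖⁻¹ • gradient ρ p

private theorem Hit_nu_c {ρ : E → ℝ} {p : E} (h : ContDiffAt ℝ 2 ρ p) (h0 : gradient ρ p ≠ 0) :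
    ContDiffAt ℝ 1 (Hit_nu ρ) p := by
  have h1 := Hit_grad h
  have h2 : ContDiffAt ℝ 1 (fun p => ‖gradient ρ p‖) p := h1.norm ℝ h0
  have h3 := h2.inv (norm_ne_zero_iff.2 h0)
  exact h3.smul h1

/-- the position -/
private def Hit_P (u : (E × E) × ℝ) : E := u.1.1 + u.2 • u.1.2

private theorem Hit_P_c : ContDiff ℝ 2 Hit_P := by
  unfold Hit_P
  fun_prop

private theorem Hit_deriv {ρ : E → ℝ} {q : E × E} {t : ℝ}
    (h : DifferentiableAt ℝ ρ (q.1 + t • q.2)) :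
    HasDerivAt (fun t : ℝ => ρ (q.1 + t • q.2)) ⟪gradient ρ (q.1 + t • q.2), q.2⟫ t := by
  have h1 : HasDerivAt (fun t : ℝ => q.1 + t • q.2) q.2 t := by
    have := ((hasDerivAt_id t).smul_const q.2).const_add q.1
    simpa using this
  rw [inner_gradient_left]
  exact h.hasFDerivAt.comp_hasDerivAt t h1

/-- the interval on which the function decreases -/
private theorem Hit_anti {ρ : E → ℝ} {q : E × E} {t₀ ε : ℝ}
    (h : ∀ t ∈ ball t₀ ε, DifferentiableAt ℝ ρ (q.1 + t • q.2) ∧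
      ⟪gradient ρ (q.1 + t • q.2), q.2⟫ < 0) :
    StrictAntiOn (fun t : ℝ => ρ (q.1 + t • q.2)) (ball t₀ ε) := by
  refine strictAntiOn_of_deriv_neg (convex_ball t₀ ε) ?_ ?_
  · intro t ht
    exact (Hit_deriv (h t ht).1).continuousAt.continuousWithinAt
  · intro t ht
    have ht' := interior_subset ht
    rw [(Hit_deriv (h t ht').1).deriv]
    exact (h t ht').2

theorem hit {V : Set E} {x₀ v₀ n₀ : E} {t₀ : ℝ} (hn : InnerNormal V (x₀ + t₀ • v₀) n₀)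
    (hv : ⟪v₀, n₀⟫ < 0) :
    ∃ (N : Set (E × E)) (τ : E × E → ℝ) (ν : E → E) (δ : ℝ), IsOpen N ∧ (x₀, v₀) ∈ N ∧ 0 < δ ∧
      ContDiffOn ℝ 1 τ N ∧ τ (x₀, v₀) = t₀ ∧ ν (x₀ + t₀ • v₀) = n₀ ∧
      (∀ q ∈ N, ContDiffAt ℝ 1 ν (q.1 + τ q • q.2)) ∧
      (∀ q ∈ N, InnerNormal V (q.1 + τ q • q.2) (ν (q.1 + τ q • q.2)) ∧
        ⟪q.2, ν (q.1 + τ q • q.2)⟫ < 0 ∧
        ∀ s, τ q - δ < s → s < τ q → q.1 + s • q.2 ∈ V) ∧
      (∀ q ∈ N, ∀ s : ℝ, (q.1 + s • q.2, q.2) ∈ N → τ (q.1 + s • q.2, q.2) = τ q - s) ∧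
      (∀ q ∈ N, ∀ h : E × E,
        ⟪h.1 + τ q • h.2 + (fderiv ℝ τ q h) • q.2, ν (q.1 + τ q • q.2)⟫ = 0) := by
  obtain ⟨hn1, ρ, hρ, hρ0, ⟨c, hc, hg⟩, hV⟩ := hn
  have hn0 : n₀ ≠ 0 := by
    intro h
    rw [h, norm_zero] at hn1
    exact zero_ne_one hn1
  have hgne : gradient ρ (x₀ + t₀ • v₀) ≠ 0 := by
    rw [hg]
    exact smul_ne_zero hc.ne' hn0
  have hv0 : v₀ ≠ 0 := by
    intro h
    rw [h, inner_zero_left] at hv
    exact lt_irrefl _ hv
  have hvn : 0 < ‖v₀‖ := norm_pos_iff.2 hv0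
  have hgv : ⟪gradient ρ (x₀ + t₀ • v₀), v₀⟫ < 0 := by
    rw [hg, real_inner_smul_left, real_inner_comm]
    exact mul_neg_of_pos_of_neg hc hv
  -- the function
  have hPu : Hit_P ((x₀, v₀), t₀) = x₀ + t₀ • v₀ := rfl
  have hF : ContDiffAt ℝ 2 (fun u => ρ (Hit_P u)) ((x₀, v₀), t₀) :=
    ContDiffAt.comp (g := ρ) ((x₀, v₀), t₀) hρ Hit_P_c.contDiffAt
  have h2 : (2 : ℕ∞ω) ≠ 0 := by norm_num
  have hinv : (fderiv ℝ (fun u => ρ (Hit_P u)) ((x₀, v₀), t₀) ∘L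
      ContinuousLinearMap.inr ℝ (E × E) ℝ).IsInvertible := by
    have d1 : HasDerivAt (fun t : ℝ => (((x₀, v₀), t) : (E × E) × ℝ)) (0, 1) t₀ :=
      (hasDerivAt_const t₀ (x₀, v₀)).prodMk (hasDerivAt_id t₀)
    have d2 := (hF.differentiableAt h2).hasFDerivAt.comp_hasDerivAt t₀ d1
    have d3 := Hit_deriv (ρ := ρ) (q := (x₀, v₀)) (t := t₀) (hρ.differentiableAt h2)
    have d4 := d2.unique d3
    refine ⟨ContinuousLinearEquiv.unitsEquivAut ℝ (Units.mk0 _ hgv.ne), ?_⟩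
    ext
    simp only [ContinuousLinearMap.comp_apply, ContinuousLinearMap.inr_apply]
    rw [d4]
    simp
  obtain ⟨τ, hτ0, hτc, hτe⟩ : ∃ τ : E × E → ℝ, τ (x₀, v₀) = t₀ ∧ ContDiffAt ℝ 2 τ (x₀, v₀) ∧
      ∀ᶠ q in 𝓝 (x₀, v₀), ρ (q.1 + τ q • q.2) = 0 := by
    refine ⟨hF.implicitFunction h2 hinv, hF.implicitFunction_apply_self h2 hinv,
      hF.contDiffAt_implicitFunction h2 hinv, ?_⟩
    have := hF.eventually_apply_implicitFunction h2 hinv
    filter_upwards [this] with q hq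
    have h3 : ρ (Hit_P (q, hF.implicitFunction h2 hinv q)) = ρ (x₀ + t₀ • v₀) := hq
    rw [hρ0] at h3
    exact h3
  -- good points
  have hPc : ContinuousAt Hit_P ((x₀, v₀), t₀) := Hit_P_c.continuous.continuousAt
  have e1 : ∀ᶠ u in 𝓝 ((x₀, v₀), t₀), ContDiffAt ℝ 2 ρ (Hit_P u) :=
    hPc.tendsto.eventually (hρ.eventually (by norm_num))
  have e2 : ∀ᶠ u in 𝓝 ((x₀, v₀), t₀), gradient ρ (Hit_P u) ≠ 0 :=
    hPc.tendsto.eventually ((Hit_grad hρ).continuousAt.eventually_ne hgne)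
  have e3 : ∀ᶠ u in 𝓝 ((x₀, v₀), t₀), ∀ᶠ x in 𝓝 (Hit_P u), (x ∈ V ↔ 0 < ρ x) :=
    hPc.tendsto.eventually hV.eventually_nhds
  have e4 : ∀ᶠ u : (E × E) × ℝ in 𝓝 ((x₀, v₀), t₀), ⟪gradient ρ (Hit_P u), u.1.2⟫ < 0 := by
    have hc1 : ContinuousAt (fun u => gradient ρ (Hit_P u)) ((x₀, v₀), t₀) :=
      ContinuousAt.comp (g := gradient ρ) (Hit_grad hρ).continuousAt hPc
    have hc2 : ContinuousAt (fun u : (E × E) × ℝ => u.1.2) ((x₀, v₀), t₀) := by fun_prop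
    exact (hc1.inner hc2).tendsto.eventually_lt_const hgv
  obtain ⟨ε, hε, hgood⟩ := Metric.eventually_nhds_iff_ball.1 (e1.and (e2.and (e3.and e4)))
  have hgood' : ∀ q ∈ ball (x₀, v₀) ε, ∀ t ∈ ball t₀ ε,
      ContDiffAt ℝ 2 ρ (q.1 + t • q.2) ∧ gradient ρ (q.1 + t • q.2) ≠ 0 ∧
      (∀ᶠ x in 𝓝 (q.1 + t • q.2), (x ∈ V ↔ 0 < ρ x)) ∧ ⟪gradient ρ (q.1 + t • q.2), q.2⟫ < 0 := by
    intro q hq t ht
    refine hgood (q, t) ?_
    rw [Metric.mem_ball, Prod.dist_eq, max_lt_iff]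
    exact ⟨hq, ht⟩
  have f1 : ∀ᶠ q in 𝓝 (x₀, v₀), ContDiffAt ℝ 1 τ q :=
    (hτc.of_le (by norm_num)).eventually (by norm_num)
  have f2 : ∀ᶠ q in 𝓝 (x₀, v₀), τ q ∈ ball t₀ (ε / 2) := by
    have := hτc.continuousAt.tendsto
    rw [hτ0] at this
    exact this.eventually (Metric.ball_mem_nhds _ (half_pos hε))
  have f3 : ∀ᶠ q : E × E in 𝓝 (x₀, v₀), ‖v₀‖ / 2 < ‖q.2‖ := by
    have hc3 : ContinuousAt (fun q : E × E => ‖q.2‖) (x₀, v₀) := by fun_prop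
    exact hc3.tendsto.eventually_const_lt (half_lt_self hvn)
  have f4 : ∀ᶠ q in 𝓝 (x₀, v₀), q ∈ ball (x₀, v₀) ε := Metric.ball_mem_nhds _ hε
  have f5 : ∀ᶠ q in 𝓝 (x₀, v₀), q ∈ ball (x₀, v₀) (ε * ‖v₀‖ / 8) :=
    Metric.ball_mem_nhds _ (by positivity)
  obtain ⟨N, hN, hNo, hN0⟩ := _root_.eventually_nhds_iff.1
    (hτe.and (f1.and (f2.and (f3.and (f4.and f5)))))
  have hhalf : ∀ t, t ∈ ball t₀ (ε / 2) → t ∈ ball t₀ ε := fun t ht =>
    Metric.ball_subset_ball (half_le_self hε.le) ht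
  refine ⟨N, τ, Hit_nu ρ, ε / 2, hNo, hN0, half_pos hε, ?_, hτ0, ?_, ?_, ?_, ?_, ?_⟩
  · intro q hq
    exact (hN q hq).2.1.contDiffWithinAt
  · unfold Hit_nu
    rw [hg, norm_smul, hn1, Real.norm_of_nonneg hc.le, mul_one, smul_smul, inv_mul_cancel₀ hc.ne',
      one_smul]
  · intro q hq
    obtain ⟨g0, g1, g2, g3, g4, g5⟩ := hN q hq
    obtain ⟨k1, k2, k3, k4⟩ := hgood' q g4 (τ q) (hhalf _ g2)
    exact Hit_nu_c k1 k2
  · intro q hq
    obtain ⟨g0, g1, g2, g3, g4, g5⟩ := hN q hq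
    obtain ⟨k1, k2, k3, k4⟩ := hgood' q g4 (τ q) (hhalf _ g2)
    have hnp : 0 < ‖gradient ρ (q.1 + τ q • q.2)‖ := norm_pos_iff.2 k2
    refine ⟨⟨?_, ρ, k1, g0, ⟨‖gradient ρ (q.1 + τ q • q.2)‖, hnp, ?_⟩, k3⟩, ?_, ?_⟩
    · unfold Hit_nu
      rw [norm_smul, norm_inv, norm_norm, inv_mul_cancel₀ hnp.ne']
    · unfold Hit_nu
      rw [smul_smul, mul_inv_cancel₀ hnp.ne', one_smul]
    · unfold Hit_nu
      rw [real_inner_smul_right, real_inner_comm]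
      exact mul_neg_of_pos_of_neg (inv_pos.2 hnp) k4
    · intro s hs1 hs2
      have hsb : s ∈ ball t₀ ε := by
        rw [Metric.mem_ball, Real.dist_eq, abs_lt] at g2 ⊢
        constructor <;> linarith [g2.1, g2.2]
      have hanti := Hit_anti (ρ := ρ) (q := q) (t₀ := t₀) (ε := ε) (fun t ht =>
        ⟨(hgood' q g4 t ht).1.differentiableAt h2, (hgood' q g4 t ht).2.2.2⟩)
      have hlt : ρ (q.1 + τ q • q.2) < ρ (q.1 + s • q.2) := hanti hsb (hhalf _ g2) hs2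
      rw [g0] at hlt
      exact ((hgood' q g4 s hsb).2.2.1.self_of_nhds).2 hlt
  · intro q hq s hq'
    obtain ⟨g0, g1, g2, g3, g4, g5⟩ := hN q hq
    obtain ⟨g0', g1', g2', g3', g4', g5'⟩ := hN _ hq'
    have hanti := Hit_anti (ρ := ρ) (q := q) (t₀ := t₀) (ε := ε) (fun t ht =>
      ⟨(hgood' q g4 t ht).1.differentiableAt h2, (hgood' q g4 t ht).2.2.2⟩)
    have hds : |s| < ε / 2 := by
      have a1 : dist (q.1 + s • q.2) q.1 ≤ dist ((q.1 + s • q.2, q.2) : E × E) q := by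
        rw [Prod.dist_eq]
        exact le_max_left _ _
      have a2 : dist ((q.1 + s • q.2, q.2) : E × E) q < ε * ‖v₀‖ / 4 := by
        have a3 := dist_triangle_right ((q.1 + s • q.2, q.2) : E × E) q (x₀, v₀)
        rw [Metric.mem_ball] at g5 g5'
        linarith
      have a4 : dist (q.1 + s • q.2) q.1 = |s| * ‖q.2‖ := by
        rw [dist_eq_norm, add_sub_cancel_left, norm_smul, Real.norm_eq_abs]
      have a5 : |s| * (‖v₀‖ / 2) ≤ |s| * ‖q.2‖ := mul_le_mul_of_nonneg_left g3.le (abs_nonneg s)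
      have a6 : |s| * (‖v₀‖ / 2) < (ε / 2) * (‖v₀‖ / 2) := by linarith
      exact lt_of_mul_lt_mul_right a6 (by positivity)
    have hb : s + τ (q.1 + s • q.2, q.2) ∈ ball t₀ ε := by
      rw [Metric.mem_ball, Real.dist_eq, abs_lt] at g2' ⊢
      rw [abs_lt] at hds
      constructor <;> linarith [g2'.1, g2'.2, hds.1, hds.2]
    have heq : q.1 + (s + τ (q.1 + s • q.2, q.2)) • q.2 =
        q.1 + s • q.2 + τ (q.1 + s • q.2, q.2) • q.2 := by
      rw [add_smul, add_assoc]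
    have h0 : ρ (q.1 + (s + τ (q.1 + s • q.2, q.2)) • q.2) = ρ (q.1 + τ q • q.2) := by
      rw [heq, g0]
      exact g0'
    have := hanti.injOn hb (hhalf _ g2) h0
    linarith
  · intro q hq h
    obtain ⟨g0, g1, g2, g3, g4, g5⟩ := hN q hq
    obtain ⟨k1, k2, k3, k4⟩ := hgood' q g4 (τ q) (hhalf _ g2)
    have dτ : HasFDerivAt τ (fderiv ℝ τ q) q := (g1.differentiableAt (by norm_num)).hasFDerivAt
    have dΦ : HasFDerivAt (fun q : E × E => q.1 + τ q • q.2)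
        (ContinuousLinearMap.fst ℝ E E + (τ q • ContinuousLinearMap.snd ℝ E E +
          (fderiv ℝ τ q).smulRight q.2)) q :=
      hasFDerivAt_fst.add (dτ.smul hasFDerivAt_snd)
    have dρ : HasFDerivAt ρ (fderiv ℝ ρ (q.1 + τ q • q.2)) (q.1 + τ q • q.2) :=
      (k1.differentiableAt h2).hasFDerivAt
    have dc := HasFDerivAt.comp (g := ρ) q dρ dΦ
    have dz : HasFDerivAt (ρ ∘ fun q : E × E => q.1 + τ q • q.2) (0 : E × E →L[ℝ] ℝ) q := by
      refine (hasFDerivAt_const (0 : ℝ) q).congr_of_eventuallyEq ?_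
      filter_upwards [hNo.mem_nhds hq] with q' hq'
      exact (hN q' hq').1
    have hz := dc.unique dz
    have hz2 := congrArg (fun L : E × E →L[ℝ] ℝ => L h) hz
    simp only [ContinuousLinearMap.comp_apply, ContinuousLinearMap.add_apply,
      ContinuousLinearMap.smul_apply, ContinuousLinearMap.smulRight_apply,
      ContinuousLinearMap.coe_fst', ContinuousLinearMap.coe_snd',
      ContinuousLinearMap.zero_apply] at hz2
    unfold Hit_nu
    rw [real_inner_smul_right, real_inner_comm, inner_gradient_left, add_assoc, hz2, mul_zero]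

end Pool.Agent.Work.MP_d70a14_gt

end
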