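import Pool.Agent.Work.MP_d70a14_gt.B.Hit
import Pool.Agent.Work.MP_d70a14_gt.B.DetB

/-! # One reflection (M)

Take `N, τ, ν, δ` from `hit` and put `p q = q.1 + τ q q.2`, `S q = (p q, mirror (ν (p q)) q.2)`.  It is `C^1` on `N` (`mirror` is polynomial in
`(n, v)`), and the equivariance of `τ` gives `p (q.1 + s q.2, q.2) = p q`.
Determinant: `B q = (p q - τ q (S q).2, (S q).2)` has at `q ∈ N` the derivative `L` as in `det_step` with `τ = τ q`, `v = q.2`,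
`n = ν (p q)`, `N = fderiv ℝ ν (p q)`, `dτ = fderiv ℝ τ q`: product rule: `dp = h.1 + τ h.2 + dτ h • v`,
`d(mirror ν v) = mirror n h.2 - 2⟪v, dν⟫ n - 2⟪v, n⟫ dν` with `dν = N dp`, and `d(p - τ v') = dp - dτ h • v' - τ • dv'`. -/

open MeasureTheory Set Metric Filter Topology
open scoped RealInnerProductSpace ContDiff ENNReal

noncomputable section

namespace Pool.Agent.Work.MP_d70a14_gt

theorem oneStep {V : Set E} {x₀ v₀ n₀ : E} {t₀ : ℝ} (hn : InnerNormal V (x₀ + t₀ • v₀) n₀)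
    (hv : ⟪v₀, n₀⟫ < 0) :
    ∃ (N : Set (E × E)) (τ : E × E → ℝ) (S : E × E → E × E) (δ : ℝ), IsOpen N ∧ (x₀, v₀) ∈ N ∧
      0 < δ ∧ ContDiffOn ℝ 1 τ N ∧ τ (x₀, v₀) = t₀ ∧ ContDiffOn ℝ 1 S N ∧
      S (x₀, v₀) = (x₀ + t₀ • v₀, mirror n₀ v₀) ∧
      (∀ q ∈ N, (S q).1 = q.1 + τ q • q.2 ∧
        (∃ n, InnerNormal V (S q).1 n ∧ ⟪q.2, n⟫ < 0 ∧ (S q).2 = mirror n q.2) ∧
        ∀ s, τ q - δ < s → s < τ q → q.1 + s • q.2 ∈ V) ∧
      (∀ q ∈ N, ∀ s : ℝ, (q.1 + s • q.2, q.2) ∈ N →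
        τ (q.1 + s • q.2, q.2) = τ q - s ∧ S (q.1 + s • q.2, q.2) = S q) ∧
      (∀ q ∈ N, |(fderiv ℝ (fun q => ((S q).1 - τ q • (S q).2, (S q).2)) q).det| = 1) := by
  obtain ⟨N, τ, ν, δ, hN, h0, hδ, hτ, hτ0, hν0, hν, hin, heq, htan⟩ := hit hn hv
  have hτq : ∀ q ∈ N, ContDiffAt ℝ 1 τ q := fun q hq => hτ.contDiffAt (hN.mem_nhds hq)
  have hpq : ∀ q ∈ N, ContDiffAt ℝ 1 (fun q : E × E => q.1 + τ q • q.2) q := fun q hq =>
    contDiffAt_fst.add ((hτq q hq).smul contDiffAt_snd)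
  have hνq : ∀ q ∈ N, ContDiffAt ℝ 1 (fun q : E × E => ν (q.1 + τ q • q.2)) q := fun q hq =>
    ContDiffAt.comp q (hν q hq) (hpq q hq)
  have hmq : ∀ q ∈ N, ContDiffAt ℝ 1 (fun q : E × E => mirror (ν (q.1 + τ q • q.2)) q.2) q := by
    intro q hq
    unfold mirror
    exact contDiffAt_snd.sub
      ((contDiffAt_const.mul (contDiffAt_snd.inner ℝ (hνq q hq))).smul (hνq q hq))
  refine ⟨N, τ, fun q => (q.1 + τ q • q.2, mirror (ν (q.1 + τ q • q.2)) q.2), δ, hN, h0, hδ, hτ,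
    hτ0, ?_, ?_, ?_, ?_, ?_⟩
  · exact fun q hq => ((hpq q hq).prodMk (hmq q hq)).contDiffWithinAt
  · show (x₀ + τ (x₀, v₀) • v₀, mirror (ν (x₀ + τ (x₀, v₀) • v₀)) v₀) = _
    rw [hτ0, hν0]
  · intro q hq
    obtain ⟨h1, h2, h3⟩ := hin q hq
    exact ⟨rfl, ⟨ν (q.1 + τ q • q.2), h1, h2, rfl⟩, h3⟩
  · intro q hq s hs
    have h1 := heq q hq s hs
    refine ⟨h1, ?_⟩
    have h2 : q.1 + s • q.2 + τ (q.1 + s • q.2, q.2) • q.2 = q.1 + τ q • q.2 := by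
      rw [h1]
      module
    show (q.1 + s • q.2 + τ (q.1 + s • q.2, q.2) • q.2,
      mirror (ν (q.1 + s • q.2 + τ (q.1 + s • q.2, q.2) • q.2)) q.2) = _
    rw [h2]
  · intro q hq
    obtain ⟨h1, h2, -⟩ := hin q hq
    have d1 : HasFDerivAt τ (fderiv ℝ τ q) q := ((hτq q hq).differentiableAt one_ne_zero).hasFDerivAt
    have d2 : HasFDerivAt ν (fderiv ℝ ν (q.1 + τ q • q.2)) (q.1 + τ q • q.2) :=
      ((hν q hq).differentiableAt one_ne_zero).hasFDerivAt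
    have d3 := (hasFDerivAt_fst (𝕜 := ℝ) (p := q)).add (d1.smul (hasFDerivAt_snd (𝕜 := ℝ) (p := q)))
    have d4 := HasFDerivAt.comp q d2 d3
    have d5 := (hasFDerivAt_snd (𝕜 := ℝ) (p := q)).inner ℝ d4
    have d6 := (hasFDerivAt_snd (𝕜 := ℝ) (p := q)).sub ((d5.const_mul 2).smul d4)
    have d7 := (d3.sub (d1.smul d6)).prodMk d6
    have d8 := d7.fderiv
    have h3 := det_step h1.1 h2.ne (fderiv ℝ ν (q.1 + τ q • q.2)) (fderiv ℝ τ q) (htan q hq)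
      (fderiv ℝ (fun q : E × E => ((q.1 + τ q • q.2) - τ q • mirror (ν (q.1 + τ q • q.2)) q.2,
        mirror (ν (q.1 + τ q • q.2)) q.2)) q) (by
        intro h
        have d9 : fderiv ℝ (fun q : E × E => ((q.1 + τ q • q.2) - τ q • mirror (ν (q.1 + τ q • q.2)) q.2,
          mirror (ν (q.1 + τ q • q.2)) q.2)) q = _ := d8
        rw [d9]
        simp only [mirror]
        ext i <;> simp [inner_add_right, real_inner_smul_right]
        · ring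
        · ring)
    exact h3

end Pool.Agent.Work.MP_d70a14_gt

end
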